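import Pool.Agent.Q125.PV.Stm
import Mathlib.Tactic.Ring
import Mathlib.Tactic.Linarith
import Mathlib.Algebra.Order.BigOperators.Ring.Finset

/-! Project PV, job CNF: the choice of the chains that are kept. -/

set_option autoImplicit false

namespace Pool.Agent.Q238.PV

open Pool.Agent.Q125.PV

theorem t_IND : S_IND := by
  intro ι _ C R _ D n hsym hdeg hcard
  induction n generalizing C with
  | zero => exact ⟨∅, Finset.empty_subset _, rfl, by simp⟩
  | succ n ih =>
    have hCpos : 0 < C.card := by
      refine lt_of_lt_of_le ?_ hcard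
      exact Nat.mul_pos (by omega) (by omega)
    obtain ⟨a, ha⟩ := Finset.card_pos.1 hCpos
    obtain ⟨C', hC'⟩ : ∃ C', C' = C.filter (fun b => b ≠ a ∧ ¬ R a b) := ⟨_, rfl⟩
    have hsub : C' ⊆ C := by rw [hC']; exact Finset.filter_subset _ _
    have hle : C.card ≤ C'.card + (D + 1) := by
      have h1 : C ⊆ C' ∪ (C.filter (fun b => b ≠ a ∧ R a b) ∪ {a}) := by
        intro b hb
        rw [Finset.mem_union, Finset.mem_union, Finset.mem_singleton, hC', Finset.mem_filter,
          Finset.mem_filter]
        by_cases h : b = a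
        · exact Or.inr (Or.inr h)
        · by_cases h2 : R a b
          · exact Or.inr (Or.inl ⟨hb, h, h2⟩)
          · exact Or.inl ⟨hb, h, h2⟩
      have h2 := Finset.card_le_card h1
      have h3 := Finset.card_union_le C' (C.filter (fun b => b ≠ a ∧ R a b) ∪ {a})
      have h4 := Finset.card_union_le (C.filter (fun b => b ≠ a ∧ R a b)) {a}
      rw [Finset.card_singleton] at h4
      have h5 := hdeg a ha
      omega
    have hcard' : (D + 1) * n ≤ C'.card := by
      rw [Nat.mul_succ] at hcard
      omega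
    have hdeg' : ∀ b ∈ C', (C'.filter (fun c => c ≠ b ∧ R b c)).card ≤ D := by
      intro b hb
      refine le_trans (Finset.card_le_card ?_) (hdeg b (hsub hb))
      exact Finset.filter_subset_filter _ hsub
    obtain ⟨K, hK, hKn, hKR⟩ := ih C' hdeg' hcard'
    have haK : a ∉ K := by
      intro h
      have := hK h
      rw [hC', Finset.mem_filter] at this
      exact this.2.1 rfl
    have hRa : ∀ b ∈ K, ¬ R a b := by
      intro b hb
      have := hK hb
      rw [hC', Finset.mem_filter] at this
      exact this.2.2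
    refine ⟨insert a K, ?_, ?_, ?_⟩
    · rw [Finset.insert_subset_iff]
      exact ⟨ha, hK.trans hsub⟩
    · rw [Finset.card_insert_of_notMem haK, hKn]
    · intro b hb c hc hbc
      rw [Finset.mem_insert] at hb hc
      rcases hb with rfl | hb
      · rcases hc with rfl | hc
        · exact absurd rfl hbc
        · exact hRa c hc
      · rcases hc with rfl | hc
        · exact fun h => hRa b hb (hsym _ _ h)
        · exact hKR b hb c hc hbc

theorem t_CNF : S_IND → S_CNF := by
  intro hI M q t k Req Fb hq hFb hM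
  classical
  -- the bad vertices
  obtain ⟨inv, hinv⟩ : ∃ inv : Fin M → Finset (Fin M),
      inv = fun e => Finset.univ.filter (fun d => e ∈ Req d) := ⟨_, rfl⟩
  have hmem : ∀ e d, d ∈ inv e ↔ e ∈ Req d := by
    intro e d
    rw [hinv]
    simp
  have hsum : ∑ e, (inv e).card = ∑ d, (Req d).card := by
    have h1 : ∀ e, (inv e).card = ∑ d, if e ∈ Req d then 1 else 0 := by
      intro e
      rw [hinv, Finset.card_filter]
    have h2 : ∀ d, (Req d).card = ∑ e, if e ∈ Req d then 1 else 0 := by
      intro d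
      rw [← Finset.card_filter, Finset.filter_mem_eq_inter, Finset.univ_inter]
    rw [Finset.sum_congr rfl (fun e _ => h1 e), Finset.sum_congr rfl (fun d _ => h2 d),
      Finset.sum_comm]
  have hsum2 : ∑ e, (inv e).card ≤ q * M := by
    rw [hsum]
    calc ∑ d, (Req d).card ≤ ∑ _d : Fin M, q := Finset.sum_le_sum (fun d _ => hq d)
      _ = q * M := by rw [Finset.sum_const, Finset.card_univ, Fintype.card_fin, smul_eq_mul, mul_comm]
  obtain ⟨B, hB⟩ : ∃ B : Finset (Fin M), B = Finset.univ.filter (fun e => ¬ (inv e).card ≤ 2 * q) :=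
    ⟨_, rfl⟩
  have hBc : 2 * B.card ≤ M := by
    have h1 : B.card * (2 * q + 1) ≤ ∑ e ∈ B, (inv e).card := by
      rw [← smul_eq_mul]
      refine Finset.card_nsmul_le_sum B _ _ ?_
      intro e he
      rw [hB, Finset.mem_filter] at he
      omega
    have h2 : ∑ e ∈ B, (inv e).card ≤ ∑ e, (inv e).card :=
      Finset.sum_le_sum_of_subset (Finset.subset_univ B)
    have h3 : B.card * (2 * q + 1) ≤ q * M := h1.trans (h2.trans hsum2)
    by_contra hcon
    push Not at hcon
    have h4 : (2 * q + 1) * (M + 1) ≤ (2 * q + 1) * (2 * B.card) := Nat.mul_le_mul_left _ hcon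
    nlinarith
  obtain ⟨C, hC⟩ : ∃ C : Finset (Fin M),
      C = Finset.univ.filter (fun e => e ∉ Fb ∧ (inv e).card ≤ 2 * q) := ⟨_, rfl⟩
  have hCc : M ≤ C.card + (Fb.card + B.card) := by
    have h1 : (Finset.univ : Finset (Fin M)) ⊆ C ∪ (Fb ∪ B) := by
      intro e _
      rw [Finset.mem_union, Finset.mem_union, hC, hB, Finset.mem_filter, Finset.mem_filter]
      by_cases h1 : e ∈ Fb
      · exact Or.inr (Or.inl h1)
      · by_cases h2 : (inv e).card ≤ 2 * q
        · exact Or.inl ⟨Finset.mem_univ _, h1, h2⟩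
        · exact Or.inr (Or.inr ⟨Finset.mem_univ _, h2⟩)
    have h2 := Finset.card_le_card h1
    rw [Finset.card_univ, Fintype.card_fin] at h2
    have h3 := Finset.card_union_le C (Fb ∪ B)
    have h4 := Finset.card_union_le Fb B
    omega
  obtain ⟨R, hR⟩ : ∃ R : Fin M → Fin M → Prop, R = fun e e' =>
      e' ∈ Req e ∨ e ∈ Req e' ∨ ∃ d, e ∈ Req d ∧ e' ∈ Req d := ⟨_, rfl⟩
  have hsym : ∀ a b, R a b → R b a := by
    intro a b h
    rw [hR] at h ⊢
    rcases h with h | h | ⟨d, h1, h2⟩
    · exact Or.inr (Or.inl h)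
    · exact Or.inl h
    · exact Or.inr (Or.inr ⟨d, h2, h1⟩)
  have hdeg : ∀ a ∈ C, (C.filter (fun b => b ≠ a ∧ R a b)).card ≤ 2 * q ^ 2 + 3 * q := by
    intro a ha
    have ha2 : (inv a).card ≤ 2 * q := by
      rw [hC, Finset.mem_filter] at ha
      exact ha.2.2
    have h1 : C.filter (fun b => b ≠ a ∧ R a b) ⊆ Req a ∪ (inv a ∪ (inv a).biUnion Req) := by
      intro b hb
      rw [Finset.mem_filter] at hb
      have hb2 := hb.2.2
      rw [hR] at hb2
      rw [Finset.mem_union, Finset.mem_union, Finset.mem_biUnion]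
      rcases hb2 with h | h | ⟨d, h1, h2⟩
      · exact Or.inl h
      · exact Or.inr (Or.inl ((hmem a b).2 h))
      · exact Or.inr (Or.inr ⟨d, (hmem a d).2 h1, h2⟩)
    have h2 := Finset.card_le_card h1
    have h3 := Finset.card_union_le (Req a) (inv a ∪ (inv a).biUnion Req)
    have h4 := Finset.card_union_le (inv a) ((inv a).biUnion Req)
    have h5 : ((inv a).biUnion Req).card ≤ (inv a).card * q :=
      Finset.card_biUnion_le_card_mul _ _ _ (fun d _ => hq d)
    have h6 : (inv a).card * q ≤ 2 * q * q := Nat.mul_le_mul_right q ha2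
    have h7 := hq a
    nlinarith
  have hcard : (2 * q ^ 2 + 3 * q + 1) * (t * k) ≤ C.card := by
    omega
  obtain ⟨K, hKC, hKn, hKR⟩ := hI (Fin M) C R (2 * q ^ 2 + 3 * q) (t * k) hsym hdeg hcard
  refine ⟨K, hKn, ?_, ?_, ?_⟩
  · rw [Finset.disjoint_left]
    intro e he
    have := hKC he
    rw [hC, Finset.mem_filter] at this
    exact this.2.1
  · intro d hd e he
    rw [Finset.mem_inter] at he
    rw [Finset.mem_singleton]
    by_contra hne
    refine hKR d hd e he.2 (fun h => hne h.symm) ?_
    rw [hR]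
    exact Or.inl he.1
  · intro d
    rw [Finset.card_le_one]
    intro a ha b hb
    rw [Finset.mem_erase, Finset.mem_inter] at ha hb
    by_contra hne
    refine hKR a ha.2.2 b hb.2.2 hne ?_
    rw [hR]
    exact Or.inr (Or.inr ⟨d, ha.2.1, hb.2.1⟩)

end Pool.Agent.Q238.PV
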