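import Pool.Agent.Q125.PV.Stm

/-! Project PV, job LEV: a criterion for `k`-strong connectivity. -/

set_option autoImplicit false

namespace Pool.Agent.Q238.PV

open Pool.Agent.Q125.PV

theorem rch_mono {V : Type} {r : V → V → Prop} {A B : Finset V} (h : A ⊆ B) {u v : V}
    (hr : Rch r A u v) : Rch r B u v :=
  Relation.ReflTransGen.mono (fun _ _ hab => ⟨h hab.1, h hab.2.1, hab.2.2⟩) _ _ hr

theorem t_LEV : S_LEV := by
  intro V ι _ r _ U k C Q s ρ lev lev' hk hC hQU hdis hs hρ hne hsr h0 h1 h0' h1'
  classical
  refine ⟨?_, ?_⟩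
  · -- the size
    have e1 : (C.biUnion Q).card = ∑ c ∈ C, (Q c).card := Finset.card_biUnion hdis
    have e2 : C.biUnion Q ⊆ U := Finset.biUnion_subset.2 hQU
    have e3 : ∀ c ∈ C, 2 ≤ (Q c).card := by
      intro c hc
      have h2 : ({s c, ρ c} : Finset V) ⊆ Q c := by
        intro y hy
        rw [Finset.mem_insert, Finset.mem_singleton] at hy
        rcases hy with rfl | rfl
        · exact hs c hc
        · exact hρ c hc
      have h3 := Finset.card_le_card h2
      rwa [Finset.card_pair (hne c hc)] at h3
    have e4 : C.card • 2 ≤ ∑ c ∈ C, (Q c).card := Finset.card_nsmul_le_sum C _ 2 e3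
    rw [smul_eq_mul] at e4
    have e5 := Finset.card_le_card e2
    omega
  · intro S hSU hSk u hu v hv
    -- a chain avoiding `S`
    obtain ⟨c, hc, hcS⟩ : ∃ c ∈ C, Disjoint (Q c) S := by
      by_contra hcon
      push Not at hcon
      have h2 : ∀ c ∈ C, ∃ y, y ∈ Q c ∧ y ∈ S := by
        intro c hc
        have := hcon c hc
        rw [Finset.not_disjoint_iff] at this
        exact this
      obtain ⟨c₀, hc₀⟩ := Finset.card_pos.1 (lt_of_lt_of_le hk hC)
      have : Nonempty V := ⟨s c₀⟩
      choose! q hq1 hq2 using h2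
      have h3 : C.card ≤ S.card := by
        refine Finset.card_le_card_of_injOn q (fun c hc => hq2 c hc) ?_
        intro c hc c' hc' hcc
        by_contra hne'
        have h4 := hdis c hc c' hc' hne'
        exact Finset.disjoint_left.1 h4 (hq1 c hc) (by rw [hcc]; exact hq1 c' hc')
      omega
    have hsub : Q c ⊆ U \ S := by
      intro y hy
      rw [Finset.mem_sdiff]
      exact ⟨hQU c hc hy, fun hyS => Finset.disjoint_left.1 hcS hy hyS⟩
    have hex : ∀ T : Finset V, T ⊆ U → k ≤ T.card → ∃ y ∈ T, y ∈ U \ S := by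
      intro T hT hTk
      by_contra hcon
      push Not at hcon
      have h2 : T ⊆ S := by
        intro y hy
        by_contra hyS
        exact hcon y hy (Finset.mem_sdiff.2 ⟨hT hy, hyS⟩)
      have h3 := Finset.card_le_card h2
      omega
    have claim1 : ∀ n : ℕ, ∀ y ∈ U \ S, lev y = n → Rch r (U \ S) y (s c) := by
      intro n
      induction n using Nat.strong_induction_on with
      | _ n ih =>
        intro y hy hyn
        have hyU := (Finset.mem_sdiff.1 hy).1
        rcases Nat.eq_zero_or_pos (lev y) with h | h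
        · obtain ⟨a, ha, hya, har⟩ := h0 y hyU h c hc
          exact Relation.ReflTransGen.head ⟨hy, hsub ha, hya⟩ (rch_mono hsub har)
        · obtain ⟨w, hw, hwS⟩ := hex _ (Finset.filter_subset _ _) (h1 y hyU h)
          rw [Finset.mem_filter] at hw
          exact Relation.ReflTransGen.head ⟨hy, hwS, hw.2.1⟩
            (ih (lev w) (by rw [← hyn]; exact hw.2.2) w hwS rfl)
    have claim2 : ∀ n : ℕ, ∀ y ∈ U \ S, lev' y = n → Rch r (U \ S) (ρ c) y := by
      intro n
      induction n using Nat.strong_induction_on with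
      | _ n ih =>
        intro y hy hyn
        have hyU := (Finset.mem_sdiff.1 hy).1
        rcases Nat.eq_zero_or_pos (lev' y) with h | h
        · obtain ⟨b, hb, hby, hbr⟩ := h0' y hyU h c hc
          exact Relation.ReflTransGen.tail (rch_mono hsub hbr) ⟨hsub hb, hy, hby⟩
        · obtain ⟨w, hw, hwS⟩ := hex _ (Finset.filter_subset _ _) (h1' y hyU h)
          rw [Finset.mem_filter] at hw
          exact Relation.ReflTransGen.tail
            (ih (lev' w) (by rw [← hyn]; exact hw.2.2) w hwS rfl) ⟨hwS, hy, hw.2.1⟩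
    exact (claim1 _ u hu rfl).trans ((rch_mono hsub (hsr c hc)).trans (claim2 _ v hv rfl))

end Pool.Agent.Q238.PV
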