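import Pool.Agent.Q125.PV.Stm
import Mathlib.Tactic.Ring
import Mathlib.Tactic.Linarith
import Mathlib.Tactic.NormNum
import Mathlib.Tactic.Positivity
import Mathlib.Tactic.IntervalCases

/-! Project PV, job PAR: the parameters. -/

set_option autoImplicit false

namespace Pool.Agent.Q238.PV

open Pool.Agent.Q125.PV

theorem par_step (m : ℕ) (hm : 10 ≤ m) : (m + 1) ^ 7 ≤ 2 * m ^ 7 := by
  obtain ⟨j, rfl⟩ := Nat.exists_eq_add_of_le hm
  have h : 2 * (10 + j) ^ 7 = (10 + j + 1) ^ 7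
      + (1 * j ^ 7 + 63 * j ^ 6 + 1659 * j ^ 5 + 23415 * j ^ 4 + 187565 * j ^ 3 + 817929 * j ^ 2
        + 1599073 * j + 512829) := by ring
  omega

theorem par_seven (n : ℕ) : (n + 6) ^ 7 ≤ 1000000 * 2 ^ n := by
  by_cases h : n < 4
  · interval_cases n <;> norm_num
  · push Not at h
    induction n, h using Nat.le_induction with
    | base => norm_num
    | succ n hn ih =>
      have h1 := par_step (n + 6) (by omega)
      calc (n + 1 + 6) ^ 7 = (n + 6 + 1) ^ 7 := by ring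
        _ ≤ 2 * (n + 6) ^ 7 := h1
        _ ≤ 2 * (1000000 * 2 ^ n) := Nat.mul_le_mul_left 2 ih
        _ = 1000000 * 2 ^ (n + 1) := by ring

theorem t_PAR : S_PAR := by
  refine ⟨1000 * (1308 ^ 2 * (1000000 * 654)), ?_⟩
  intro k t hk ht
  obtain ⟨y, hy⟩ : ∃ y, y = t * k := ⟨_, rfl⟩
  have hy1 : 1 ≤ y := by rw [hy]; exact Nat.mul_pos ht hk
  have hty : t ≤ y := by rw [hy]; exact Nat.le_mul_of_pos_right t hk
  -- existence
  have hex : ∃ n : ℕ, 654 * (n + 6) ^ 2 * y ≤ 2 ^ (n + 1) := by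
    refine ⟨1000000 * 654 * y, ?_⟩
    obtain ⟨n, hn⟩ : ∃ n, n = 1000000 * 654 * y := ⟨_, rfl⟩
    rw [← hn]
    have h1 := par_seven n
    have h2 : n ≤ (n + 6) ^ 5 := by
      calc n ≤ (n + 6) := by omega
        _ ≤ (n + 6) ^ 5 := Nat.le_self_pow (by norm_num) _
    have h3 : 1000000 * (654 * (n + 6) ^ 2 * y) ≤ 1000000 * 2 ^ (n + 1) := by
      calc 1000000 * (654 * (n + 6) ^ 2 * y) = (n + 6) ^ 2 * (1000000 * 654 * y) := by ring
        _ = (n + 6) ^ 2 * n := by rw [← hn]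
        _ ≤ (n + 6) ^ 2 * (n + 6) ^ 5 := Nat.mul_le_mul_left _ h2
        _ = (n + 6) ^ 7 := by ring
        _ ≤ 1000000 * 2 ^ n := h1
        _ ≤ 1000000 * 2 ^ (n + 1) := by
            rw [pow_succ]
            omega
    omega
  classical
  obtain ⟨n, hn⟩ : ∃ n, n = Nat.find hex := ⟨_, rfl⟩
  have hsp : 654 * (n + 6) ^ 2 * y ≤ 2 ^ (n + 1) := by
    rw [hn]; exact Nat.find_spec hex
  have hn0 : n ≠ 0 := by
    intro h0
    rw [h0] at hsp
    norm_num at hsp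
    omega
  obtain ⟨p, hp⟩ : ∃ p, n = p + 1 := Nat.exists_eq_succ_of_ne_zero hn0
  have hmin : 2 ^ (p + 1) < 654 * (p + 6) ^ 2 * y := by
    have := Nat.find_min hex (m := p) (by omega)
    omega
  -- `ℓ = p + 7`, `M = 2 ^ (p + 2)`
  have hM : 2 ^ (p + 2) ≤ 1308 * (p + 7) ^ 2 * y := by
    have h1 : (p + 6) ^ 2 ≤ (p + 7) ^ 2 := Nat.pow_le_pow_left (by omega) 2
    calc 2 ^ (p + 2) = 2 * 2 ^ (p + 1) := by ring
      _ ≤ 2 * (654 * (p + 6) ^ 2 * y) := Nat.mul_le_mul_left 2 hmin.le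
      _ ≤ 2 * (654 * (p + 7) ^ 2 * y) := by gcongr
      _ = 1308 * (p + 7) ^ 2 * y := by ring
  have hl : (p + 7) ^ 5 ≤ 1000000 * 654 * y := by
    have h1 := par_seven (p + 1)
    have h2 : (p + 7) ^ 2 * (p + 7) ^ 5 ≤ (p + 7) ^ 2 * (1000000 * 654 * y) := by
      calc (p + 7) ^ 2 * (p + 7) ^ 5 = (p + 1 + 6) ^ 7 := by ring
        _ ≤ 1000000 * 2 ^ (p + 1) := h1
        _ ≤ 1000000 * (654 * (p + 6) ^ 2 * y) := Nat.mul_le_mul_left _ hmin.le
        _ ≤ 1000000 * (654 * (p + 7) ^ 2 * y) := by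
            have h1 : (p + 6) ^ 2 ≤ (p + 7) ^ 2 := Nat.pow_le_pow_left (by omega) 2
            gcongr
        _ = (p + 7) ^ 2 * (1000000 * 654 * y) := by ring
    exact Nat.le_of_mul_le_mul_left h2 (by positivity)
  refine ⟨p + 7, 2 ^ (p + 2), by omega, Nat.one_le_two_pow, ?_, ?_, ?_⟩
  · rw [show p + 7 - 1 = p + 6 by omega]
    ring
  · rw [← hy]
    calc 2 * ((2 * (4 * (p + 7) + 8) ^ 2 + 3 * (4 * (p + 7) + 8) + 1) * y + 2 * t)
        ≤ 2 * ((2 * (4 * (p + 7) + 8) ^ 2 + 3 * (4 * (p + 7) + 8) + 1) * y + 2 * y) := by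
          gcongr
      _ = 2 * (2 * (4 * (p + 7) + 8) ^ 2 + 3 * (4 * (p + 7) + 8) + 3) * y := by ring
      _ ≤ (654 * (p + 1 + 6) ^ 2) * y := by
          refine Nat.mul_le_mul_right y ?_
          nlinarith
      _ ≤ 2 ^ (p + 2) := by
          rw [hp] at hsp
          exact hsp
  · calc 1000 * (k * (2 ^ (p + 2)) ^ 2 * (p + 7))
        ≤ 1000 * (k * (1308 * (p + 7) ^ 2 * y) ^ 2 * (p + 7)) := by gcongr
      _ = 1000 * (1308 ^ 2 * (p + 7) ^ 5 * (k * y ^ 2)) := by ring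
      _ ≤ 1000 * (1308 ^ 2 * (1000000 * 654 * y) * (k * y ^ 2)) := by gcongr
      _ = 1000 * (1308 ^ 2 * (1000000 * 654)) * k ^ 4 * t ^ 3 := by rw [hy]; ring

end Pool.Agent.Q238.PV
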